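import Pool.Agent.Results.MP_87f965_ag.RandomHypersurfaces
import Pool.Agent.X67.GD.Poly

/-!
# Rational points outside thin sets on ALL Fano hypersurfaces near generic dilates, of all degrees and dimensions at once

Let `L_k` be real numbers (for example `L_k = k`). There are numbers `g_k` such that for every sequence `v_k ≥ g_k`, ALL
`n ≥ 3`, `2 ≤ d ≤ n` and almost all real forms `α` of degree `d` in `n + 1` variables (given by their coefficients): for
every `M`, for all large `k`, ALL the smooth everywhere locally soluble hypersurfaces `f = 0` in `ℙⁿ` with integral forms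
`f` of degree `d` whose coefficients differ from those of `v_k α` by at most `L_k` have rational points outside all the
thin subsets of `ℙⁿ(ℚ)` of complexity at most `M`, within `1 / M` of arbitrary points over the real numbers and over the
`p`-adic fields with `p ≤ M`.

In the starting result `RandomHypersurfaces` this holds for 100% of the hypersurfaces with coefficients bounded by `H`;
the exceptions could contain members of each of the cubes. For `L_k → ∞` the cubes contain forms in all residue classes
modulo any given number. Proof: Borel-Cantelli.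
-/

set_option autoImplicit false

namespace Pool.Agent.Results.MP_87f965_ag.GenericDilates

open Filter MeasureTheory Finset
open Pool.Agent.X67.GD (AllNear DensityOne form mons)
open RandomHypersurfaces (Forms Smooth LocallySoluble ApproximationOutsideThinSets BoundedCovers bounded_mono)

theorem approx_mono {n M m : ℕ} (hM : 1 ≤ M) (hm : M ≤ m) {f : MvPolynomial (Fin (n + 1)) ℤ}
    (h : ApproximationOutsideThinSets m f) : ApproximationOutsideThinSets M f := by
  have hM0 : (0 : ℝ) < M := by exact_mod_cast hM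
  have hMm : (M : ℝ) ≤ m := by exact_mod_cast hm
  intro z y hz hy hyf
  obtain ⟨x, hx0, hxf, hx1, ⟨c, hc, hx2⟩, hx3⟩ := h z y hz hy hyf
  refine ⟨x, hx0, hxf, fun p _ hp => ?_, ⟨c, hc, fun i => (hx2 i).trans ?_⟩, fun P hP w => hx3 P (bounded_mono hm hP) w⟩
  · obtain ⟨c, hc, hx4⟩ := hx1 p (hp.trans hm)
    exact ⟨c, hc, fun i => (hx4 i).trans (div_le_div_of_nonneg_left (norm_nonneg _) hM0 hMm)⟩
  · exact div_le_div_of_nonneg_left (norm_nonneg _) hM0 hMm

/-- the pairs `(n, d)` with `n ≥ 3` and `2 ≤ d ≤ n` -/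
abbrev FanoType : Type := {x : ℕ × ℕ // 3 ≤ x.1 ∧ 2 ≤ x.2 ∧ x.2 ≤ x.1}

theorem density (n d : ℕ) (hn : 3 ≤ n) (h2 : 2 ≤ d) (hd : d ≤ n) (M : ℕ) :
    DensityOne (fun w : ↥(mons n d) → ℤ => (Smooth (form (mons n d) w) ∧ LocallySoluble (form (mons n d) w)) →
      ApproximationOutsideThinSets (M + 1) (form (mons n d) w)) := by
  obtain ⟨⟨m, hm, h3⟩, -⟩ := RandomHypersurfaces.result n d hn h2 hd
  refine Pool.Agent.X67.GD.densityOne_of_ratio (form (mons n d)) (Pool.Agent.X67.GD.form_injective _)
    (fun H => Forms n d H) (fun H => ?_)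
    (fun H f => Smooth f ∧ LocallySoluble f ∧ ApproximationOutsideThinSets (m H) f)
    (ApproximationOutsideThinSets (M + 1)) (fun f => Smooth f ∧ LocallySoluble f)
    (fun _ f _ hf => ⟨hf.1, hf.2.1⟩) ?_ h3
  · rw [← Pool.Agent.X67.GD.form_image]
    ext f
    exact and_congr (Pool.Agent.X67.GD.isHomogeneous_iff f) Iff.rfl
  · filter_upwards [tendsto_atTop.mp hm (M + 1)] with H hH f _ hf
    exact approx_mono (by omega) hH hf.2.2

/-- **Theorem.** Let `L_k` be real numbers. There are numbers `g_k` such that for every sequence `v` with `v_k ≥ g_k` for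
all large `k`, ALL `n ≥ 3`, `2 ≤ d ≤ n` and almost all real coefficient vectors `α` of forms of degree `d` in `n + 1`
variables: for every `M ≥ 1`, for all large `k`, ALL integral forms `f` of degree `d` whose coefficients differ from
those of `v_k α` by at most `L_k`, and for which `f = 0` is smooth and everywhere locally soluble, satisfy
`ApproximationOutsideThinSets M f`. -/
theorem result (L : ℕ → ℝ) : ∃ g : ℕ → ℝ, ∀ v : ℕ → ℝ, (∀ᶠ k in atTop, g k ≤ v k) →
    ∀ (n d : ℕ), 3 ≤ n → 2 ≤ d → d ≤ n → ∀ᵐ α : ↥(mons n d) → ℝ, ∀ M : ℕ, 1 ≤ M →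
      AllNear (fun w => (Smooth (form (mons n d) w) ∧ LocallySoluble (form (mons n d) w)) →
        ApproximationOutsideThinSets M (form (mons n d) w)) L v α := by
  obtain ⟨g, hg⟩ := Pool.Agent.X67.GD.exists_gauge_all (ι := FanoType × ℕ)
    (fun x => ↥(mons x.1.1.1 x.1.1.2))
    (fun x w => (Smooth (form (mons x.1.1.1 x.1.1.2) w) ∧ LocallySoluble (form (mons x.1.1.1 x.1.1.2) w)) →
      ApproximationOutsideThinSets (x.2 + 1) (form (mons x.1.1.1 x.1.1.2) w))
    (fun x => density x.1.1.1 x.1.1.2 x.1.2.1 x.1.2.2.1 x.1.2.2.2 x.2) L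
  refine ⟨g, fun v hv n d hn h2 hd => ?_⟩
  have h1 : ∀ M : ℕ, ∀ᵐ α : ↥(mons n d) → ℝ,
      AllNear (fun w => (Smooth (form (mons n d) w) ∧ LocallySoluble (form (mons n d) w)) →
        ApproximationOutsideThinSets (M + 1) (form (mons n d) w)) L v α :=
    fun M => hg v hv (⟨(n, d), hn, h2, hd⟩, M)
  filter_upwards [ae_all_iff.2 h1] with α hα M hM
  obtain ⟨M', rfl⟩ : ∃ M', M = M' + 1 := ⟨M - 1, by omega⟩
  exact hα M'

end Pool.Agent.Results.MP_87f965_ag.GenericDilates
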