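import Pool.Agent.X213.HP.Main

/-!
# The Hilbert property of the hypersurfaces of degree at most two in pairs of variables

Let `k` be a finitely generated field of characteristic zero and `f` a polynomial in the variables
`x_0, ..., x_(n + 1)` over `k` which involves all of them, such that the hypersurface `f = 0` is
geometrically integral. Suppose that the variables can be numbered in such a way that every
variable `x_j`, `j > 0`, has a partner `x_i`, `i < j`, such that every monomial of `f` has degree at
most two in `x_i` and `x_j` together (so that the plane sections in the direction of `x_i` and `x_j`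
are conics), and that for `j > 1` the discriminant `D` of `f` with respect to `x_i` is not the
product of a polynomial without `x_h` and a polynomial without `x_j`, for some `h < j`, `h ≠ i`;
more precisely, `D ∂_h ∂_j D ≠ ∂_h D ∂_j D` (`Ordered`).

We prove that every integral scheme `X` of finite type over `k` which is birational to `f = 0` (in
particular every smooth projective model) has the Hilbert property as soon as its `k`-points are
dense, or as soon as it has one `k`-point in a certain nonempty open subset `V`; these properties
are also equivalent to the unirationality of `X` over `k`. No hypothesis on the fundamental group,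
on the singularities or on the divisors of `X` is made.

If all partners are equal to `x_0` these are double covers of the affine space, ramified over a
divisor of degree at most two in each variable, see `ConicDoubleCovers`. In general the equation is
of degree at most two in every variable, but of arbitrary degree in pairs of variables which are not
partners: for instance `f = A(y) + B(y, z) + C(z)`, where `y` and `z` are blocks of variables, `A`
has degree at most two in each `y_i`, `C` has degree at most two in each `z_j` and `B` has degree at
most one in each variable.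

The proof. The partners give `n + 1` conic fibrations of `X`. By the theorem on conic fibrations
(`ConicFibrations`) it is enough to show that only constants are algebraic over all the bases, and
that a finite extension `M` of the function field `K`, in which `k` is algebraically closed and
which is pulled back from all the bases, is equal to `K`. We show by induction on `j` that `M` is
generated over `K` by elements algebraic over `k(x_l : l > j)`: let `F` be the field of the elements
of `M` algebraic over `k(x_l : l > j)` and `N` the field of those algebraic over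
`k(x_l : l ≠ i, j)`; `M` is equal to `N(x_j, √D)`, where `D` is quadratic in `x_j` and not
proportional to a polynomial over `F`, and this implies that `F(x_j)` is algebraically closed in `M`.
-/

set_option autoImplicit false

namespace Pool.Agent.Results.MP_87f965_ag.LowDegreePairs

open MvPolynomial AlgebraicGeometry CategoryTheory W560.HP Pool.Agent.Y742.HC
open Pool.Agent.TH178.HI (disc HasFunctionField)

/-- Every variable `x_j` but the first one has a partner `x_i`, `i < j`, such that all monomials of
`f` have degree at most two in `x_i` and `x_j` together, and, if `j > 1`, such that for some `h < j`,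
`h ≠ i` the discriminant `D = (∂_i f)² - 2 f ∂_i² f` of `f` with respect to `x_i` satisfies
`D ∂_h ∂_j D ≠ ∂_h D ∂_j D`. -/
def Ordered {k : Type} [Field k] {n : ℕ} (f : MvPolynomial (Fin (n + 2)) k) : Prop :=
  ∀ j : Fin (n + 2), 0 < (j : ℕ) → ∃ i < j, (∀ m ∈ f.support, m i + m j ≤ 2) ∧
    (1 < (j : ℕ) → ∃ h < j, h ≠ i ∧
      disc f i * pderiv h (pderiv j (disc f i)) ≠ pderiv h (disc f i) * pderiv j (disc f i))

theorem result (k : Type) [Field k] [CharZero k]
    (hk : ∃ S : Finset k, IntermediateField.adjoin ℚ (S : Set k) = ⊤) (n : ℕ)
    (f : MvPolynomial (Fin (n + 2)) k) (hvar : ∀ l, f.degreeOf l ≠ 0) (hord : Ordered f)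
    -- the function field of `f = 0`, in which `k` is algebraically closed
    (K : Type) [Field K] [Algebra k K] (x : Fin (n + 2) → K)
    (hx : ∀ P : MvPolynomial (Fin (n + 2)) k, aeval x P = 0 ↔ f ∣ P)
    (hgen : IntermediateField.adjoin k (Set.range x) = ⊤)
    (hcl : ∀ a : K, IsAlgebraic k a → a ∈ Set.range (algebraMap k K))
    (X : Scheme.{0}) (p : X ⟶ Spec (CommRingCat.of k)) [IsIntegral X] [LocallyOfFiniteType p]
    (hX : HasFunctionField k X p K) :
    (∃ V : X.Opens, (V : Set X).Nonempty ∧
      [∃ s : Spec (CommRingCat.of k) ⟶ X, s ≫ p = 𝟙 _ ∧ ∃ z ∈ V, z ∈ Set.range s.base,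
        DensePoints k X p, UnirationalScheme k X p, HilbertProperty k X p].TFAE) ∧
    ((∀ z : X, IsIntegrallyClosed (X.presheaf.stalk z)) → DensePoints k X p →
      HilbertPropertyIso k X p) := by
  have hgp : Pool.Agent.Y200.CY.GPt f x := ⟨hx, hgen⟩
  -- the partners
  have hord' : ∀ t : Fin (n + 1), ∃ i : Fin (n + 2), i < t.succ ∧
      Pool.Agent.X213.HP.Deg2 i t.succ 2 f ∧ (0 < (t : ℕ) → ∃ h : Fin (n + 2), h < t.succ ∧ h ≠ i ∧
        Pool.Agent.X213.HP.Crosses f h i t.succ) := by
    intro t
    obtain ⟨i, h1, h2, h3⟩ := hord t.succ (by rw [Fin.val_succ]; omega)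
    refine ⟨i, h1, h2, fun ht => ?_⟩
    obtain ⟨h, h4, h5, h6⟩ := h3 (by rw [Fin.val_succ]; omega)
    exact ⟨h, h4, h5, h6⟩
  choose i hi hdeg hcr using hord'
  let L : Fin (n + 1) → IntermediateField k K :=
    fun t => Pool.Agent.TH178.HI.AC k (x '' {l | l ≠ i t ∧ l ≠ t.succ})
  have hL : ∀ t, Pool.Agent.TH178.HI.IsConicOver (L t) := fun t =>
    Pool.Agent.X213.HP.conic hgp (hvar _) (ne_of_lt (hi t)) (hdeg t)
  have hinv : ∀ a : K, (∀ t, IsAlgebraic (L t) a) → a ∈ Set.range (algebraMap k K) :=
    fun a ha => hcl a (Pool.Agent.X213.HP.inv_main hgp hvar hi ha)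
  obtain ⟨e, he⟩ := hX
  have hH : DensePoints k X p → HilbertProperty k X p ∧
      ((∀ x : X, IsIntegrallyClosed (X.presheaf.stalk x)) → HilbertPropertyIso k X p) := fun hd =>
    (hilb k hk K X p e he hd L hL hinv).2.1 fun M _ _ _ _ _ hM1 hM2 _ =>
      Pool.Agent.X213.HP.cover_main hgp hvar hi hdeg hcr hM1 hM2
  obtain ⟨V, hV, hT⟩ := opens k K X p ⟨e, he⟩ L hL hinv
  refine ⟨⟨V, hV, ?_⟩, fun hn hd => (hH hd).2 hn⟩
  tfae_have 1 ↔ 2 := hT.out 0 1
  tfae_have 2 ↔ 3 := hT.out 1 2
  tfae_have 2 → 4 := fun hd => (hH hd).1
  tfae_have 4 → 2 := by
    intro h
    refine (h 0 (fun i => i.elim0) (fun i => i.elim0) (fun i => i.elim0) (fun i => i.elim0)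
      (fun i => i.elim0) (fun i => i.elim0)).mono ?_
    rintro z ⟨s, hs, hz, -⟩
    exact ⟨s, hs, hz⟩
  tfae_finish

end Pool.Agent.Results.MP_87f965_ag.LowDegreePairs
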